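import Mathlib

set_option autoImplicit false

namespace Pool.Agent.H.MP_4617fc_co

open SimpleGraph

variable {V : Type} {G : SimpleGraph V}

theorem adj_le (hc : G.Connected) (s : V) {a b : V} (h : G.Adj a b) :
    G.dist s a ≤ G.dist s b + 1 := by
  have h1 : G.dist s a ≤ G.dist s b + G.dist b a := hc.dist_triangle
  have h2 : G.dist b a = 1 := dist_eq_one_iff_adj.2 h.symm
  omega

theorem adj_le' (hc : G.Connected) (s : V) {a b : V} (h : G.Adj a b) :
    G.dist a s ≤ G.dist b s + 1 := by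
  rw [G.dist_comm (u := a), G.dist_comm (u := b)]
  exact adj_le hc s h

theorem pred (hc : G.Connected) (y s : V) (h : s ≠ y) :
    ∃ s', G.Adj s s' ∧ G.dist y s' + 1 = G.dist y s := by
  obtain ⟨q, hq⟩ := hc.exists_walk_length_eq_dist s y
  cases q with
  | nil => exact absurd rfl h
  | @cons _ s' _ ha q' =>
    refine ⟨s', ha, ?_⟩
    have h1 := dist_le q'
    have h2 := adj_le hc y ha
    rw [G.dist_comm (u := s')] at h1
    rw [G.dist_comm (u := s), Walk.length_cons] at hq
    omega

theorem eq_of_dist (hc : G.Connected) {a b : V} (h : G.dist a b = 0) : a = b :=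
  hc.dist_eq_zero_iff.1 h

structure BT (G : SimpleGraph V) (r : V) (p : V → V) : Prop where
  conn : G.Connected
  pr : p r = r
  adj : ∀ v, v ≠ r → G.Adj v (p v)
  lev : ∀ v, v ≠ r → G.dist r (p v) + 1 = G.dist r v

theorem exists_BT (hc : G.Connected) (r : V) : ∃ p, BT G r p := by
  classical
  have : ∀ v, ∃ u, (v = r → u = r) ∧ (v ≠ r → G.Adj v u ∧ G.dist r u + 1 = G.dist r v) := by
    intro v
    by_cases h : v = r
    · exact ⟨r, fun _ => rfl, fun h' => absurd h h'⟩
    · obtain ⟨u, hu⟩ := pred hc r v h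
      exact ⟨u, fun h' => absurd h' h, fun _ => hu⟩
  choose p hp using this
  exact ⟨p, hc, (hp r).1 rfl, fun v h => ((hp v).2 h).1, fun v h => ((hp v).2 h).2⟩

inductive Desc (r : V) (p : V → V) (x : V) : V → Prop
  | refl : Desc r p x x
  | step (s : V) : s ≠ r → Desc r p x (p s) → Desc r p x s

def Down (G : SimpleGraph V) (r x s : V) : Prop := G.dist x s + G.dist r x = G.dist r s

def NT (G : SimpleGraph V) (p : V → V) (x y : V) : Prop := G.Adj x y ∧ p x ≠ y ∧ p y ≠ x

theorem NT.symm {p : V → V} {x y : V} (h : NT G p x y) : NT G p y x :=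
  ⟨h.1.symm, h.2.2, h.2.1⟩

variable {r : V} {p : V → V}

theorem tri (hc : G.Connected) (r x s : V) : G.dist r s ≤ G.dist x s + G.dist r x := by
  have : G.dist r s ≤ G.dist r x + G.dist x s := hc.dist_triangle
  omega

theorem BT.down (T : BT G r p) {x s : V} (h : Desc r p x s) : Down G r x s := by
  induction h with
  | refl => simp [Down]
  | step s hs _ ih =>
    have h1 := adj_le T.conn x (T.adj s hs)
    have h2 := T.lev s hs
    have h3 := tri T.conn r x s
    unfold Down at *
    omega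

theorem BT.le (T : BT G r p) {x s : V} (h : Desc r p x s) : G.dist r x ≤ G.dist r s := by
  have := T.down h
  unfold Down at this
  omega

theorem BT.eq_of (T : BT G r p) {x s : V} (h : Desc r p x s) (h2 : G.dist r s ≤ G.dist r x) :
    x = s := by
  have := T.down h
  unfold Down at this
  exact eq_of_dist T.conn (by omega)

theorem BT.uniq (T : BT G r p) {x y s : V} (h : Desc r p x s) (h' : Desc r p y s)
    (e : G.dist r x = G.dist r y) : x = y := by
  induction h with
  | refl => exact (T.eq_of h' e.le).symm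
  | step s hs h1 ih =>
    cases h' with
    | refl =>
      have := T.le h1
      have := T.lev _ hs
      omega
    | step _ _ h2 => exact ih h2

theorem Desc.trans {x y s : V} (h : Desc r p x y) (h' : Desc r p y s) : Desc r p x s := by
  induction h' with
  | refl => exact h
  | step s hs _ ih => exact Desc.step s hs ih

theorem Desc.of_child {x c : V} (hc : c ≠ r) (h : p c = x) : Desc r p x c :=
  Desc.step c hc (h ▸ Desc.refl)

theorem BT.ne_root (T : BT G r p) {x y : V} (h : G.Adj x y) (e : p x = y) : x ≠ r := by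
  rintro rfl
  rw [T.pr] at e
  exact h.ne e

theorem BT.ne_root' (_T : BT G r p) {x : V} (h : 0 < G.dist r x) : x ≠ r := by
  rintro rfl
  simp at h

theorem BT.root_notNT (T : BT G r p) {y : V} (h : NT G p r y) : False := by
  have hy : y ≠ r := h.1.ne.symm
  have h1 := T.lev y hy
  have h2 : G.dist r y = 1 := dist_eq_one_iff_adj.2 h.1
  exact h.2.2 (eq_of_dist T.conn (by omega)).symm

/-- upper endpoints of non-tree edges -/
def Up (G : SimpleGraph V) (r : V) (p : V → V) (u : V) : Prop :=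
  ∃ v, NT G p u v ∧ G.dist r v = G.dist r u + 1

theorem BT.descent (T : BT G r p) (y : V) : ∀ k s, G.dist y s = k → Down G r y s →
    ¬ Desc r p y s → ∃ u, Up G r p u ∧ Desc r p y u ∧ G.dist r u < G.dist r s := by
  intro k
  induction k with
  | zero =>
    intro s hs _ hn
    exact absurd (eq_of_dist T.conn hs ▸ Desc.refl) hn
  | succ k ih =>
    intro s hs hd hn
    have hne : s ≠ y := by
      rintro rfl
      simp at hs
    obtain ⟨s', ha, hl⟩ := pred T.conn y s hne
    have h1 := adj_le T.conn r ha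
    have h2 := tri T.conn r y s'
    have hd' : Down G r y s' := by
      unfold Down at *
      omega
    have hlev : G.dist r s = G.dist r s' + 1 := by
      unfold Down at *
      omega
    by_cases hD : Desc r p y s'
    · refine ⟨s', ⟨s, ⟨ha.symm, ?_, ?_⟩, hlev⟩, hD, by omega⟩
      · intro e
        have := T.lev s' (T.ne_root ha.symm e)
        rw [e] at this
        omega
      · intro e
        exact hn (Desc.step s (T.ne_root ha e) (e ▸ hD))
    · obtain ⟨u, hu, hu1, hu2⟩ := ih s' (by omega) hd' hD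
      exact ⟨u, hu, hu1, by omega⟩

theorem BT.sep (T : BT G r p) : ∀ k s x y, G.dist r s = k → x ≠ y → G.dist r x = G.dist r y →
    Desc r p x s → ∃ t, (t = s ∨ Up G r p t) ∧
      ((Desc r p x t ∧ ¬ Down G r y t) ∨ (Desc r p y t ∧ ¬ Down G r x t)) := by
  intro k
  induction k using Nat.strong_induction_on with
  | _ k ih =>
    intro s x y hk hne hl hD
    by_cases hd : Down G r y s
    · have hn : ¬ Desc r p y s := fun h => hne (T.uniq hD h hl)
      obtain ⟨u, hu, hu1, hu2⟩ := T.descent y _ s rfl hd hn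
      obtain ⟨t, ht, ht'⟩ := ih (G.dist r u) (by omega) u y x rfl hne.symm hl.symm hu1
      refine ⟨t, Or.inr ?_, ht'.symm⟩
      rcases ht with rfl | ht
      · exact hu
      · exact ht
    · exact ⟨s, Or.inl rfl, Or.inl ⟨hD, hd⟩⟩

theorem BT.lca (T : BT G r p) : ∀ k x y, G.dist r x = k → x ≠ y → G.dist r x = G.dist r y →
    ∃ a b, a ≠ b ∧ a ≠ r ∧ b ≠ r ∧ p a = p b ∧ Desc r p a x ∧ Desc r p b y := by
  intro k
  induction k with
  | zero =>
    intro x y hk hne hl
    exact absurd ((eq_of_dist T.conn hk).symm.trans (eq_of_dist T.conn (hl ▸ hk))) hne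
  | succ k ih =>
    intro x y hk hne hl
    have hx : x ≠ r := T.ne_root' (by omega)
    have hy : y ≠ r := T.ne_root' (by omega)
    by_cases e : p x = p y
    · exact ⟨x, y, hne, hx, hy, e, Desc.refl, Desc.refl⟩
    · have h1 := T.lev x hx
      have h2 := T.lev y hy
      obtain ⟨a, b, h3, h4, h5, h6, h7, h8⟩ := ih (p x) (p y) (by omega) e (by omega)
      exact ⟨a, b, h3, h4, h5, h6, Desc.step x hx h7, Desc.step y hy h8⟩

/-- the antipode lemma -/
theorem antipode (hc : G.Connected) (v a b : V) (ha : G.Adj v a) (hb : G.Adj v b) (hab : a ≠ b)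
    (hcon : ∀ P : V → Prop, (∀ z z', G.Adj z z' → z ≠ v → z' ≠ v → P z → P z') → P a → P b) :
    ∃ r, (∃ x y, x ≠ y ∧ G.Adj v x ∧ G.Adj v y ∧ G.dist r x + 1 = G.dist r v ∧
      G.dist r y + 1 = G.dist r v) ∨ (∃ y, G.Adj v y ∧ G.dist r y = G.dist r v) := by
  by_contra hn
  push Not at hn
  have key := hcon (fun z => G.dist z a + 1 = G.dist z v) (by
    intro z z' hz h1 h2 hP
    obtain ⟨b', hb1, hb2⟩ := pred hc z' v h2.symm
    by_cases e : b' = a
    · exact e ▸ hb2
    · exfalso
      have c1 := (hn z).1 a b' (Ne.symm e) ha hb1 hP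
      have c2 := (hn z).2 b' hb1
      have c3 := (hn z').1 b' a e hb1 ha hb2
      have c4 := (hn z').2 a ha
      have d1 := adj_le hc z hb1
      have d2 := adj_le hc z hb1.symm
      have d3 := adj_le hc z' ha
      have d4 := adj_le hc z' ha.symm
      have d5 := adj_le' hc b' hz
      have d6 := adj_le' hc a hz.symm
      omega) (by
    have : G.dist a v = 1 := dist_eq_one_iff_adj.2 ha.symm
    simp [this])
  have : G.dist b v = 1 := dist_eq_one_iff_adj.2 hb.symm
  exact hab (eq_of_dist hc (by omega)).symm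

theorem BT.deepest [Fintype V] (_T : BT G r p) (P : V → Prop) (x : V) (hx : P x) :
    ∃ z, P z ∧ ∀ y, P y → G.dist r y ≤ G.dist r z := by
  classical
  obtain ⟨z, hz, hm⟩ := Finset.exists_max_image (Finset.univ.filter P) (fun y => G.dist r y)
    ⟨x, by simp [hx]⟩
  exact ⟨z, by simpa using hz, fun y hy => hm y (by simp [hy])⟩

/-- every vertex of `K` has two neighbours in `K` -/
def Core (G : SimpleGraph V) (K : V → Prop) : Prop :=
  ∀ v, K v → ∃ a b, a ≠ b ∧ G.Adj v a ∧ G.Adj v b ∧ K a ∧ K b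

def Three (G : SimpleGraph V) (K : V → Prop) (v : V) : Prop :=
  ∃ a b c, a ≠ b ∧ a ≠ c ∧ b ≠ c ∧ G.Adj v a ∧ G.Adj v b ∧ G.Adj v c ∧ K a ∧ K b ∧ K c

theorem BT.core_desc [Fintype V] (T : BT G r p) {K : V → Prop} (hK : Core G K) {x : V}
    (hx : K x) : ∃ z y, Desc r p x z ∧ K z ∧ K y ∧ NT G p z y ∧
      ∀ c, Desc r p x c → K c → G.dist r c ≤ G.dist r z := by
  obtain ⟨z, ⟨hz1, hz2⟩, hm⟩ := T.deepest (fun z => Desc r p x z ∧ K z) x ⟨Desc.refl, hx⟩
  obtain ⟨a, b, hab, ha, hb, ka, kb⟩ := hK z hz2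
  have key : ∀ y, G.Adj z y → K y → p y ≠ z := by
    intro y hy ky e
    have h0 := T.ne_root hy.symm e
    have h1 := T.lev y h0
    have h2 := hm y ⟨hz1.trans (Desc.of_child h0 e), ky⟩
    rw [e] at h1
    omega
  by_cases e : p z = a
  · exact ⟨z, b, hz1, hz2, kb, ⟨hb, fun e' => hab (e.symm.trans e'), key b hb kb⟩,
      fun c h1 h2 => hm c ⟨h1, h2⟩⟩
  · exact ⟨z, a, hz1, hz2, ka, ⟨ha, e, key a ha ka⟩, fun c h1 h2 => hm c ⟨h1, h2⟩⟩

theorem BT.root_desc (T : BT G r p) : ∀ k v, G.dist r v = k → Desc r p r v := by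
  intro k
  induction k with
  | zero => intro v h; exact eq_of_dist T.conn h ▸ Desc.refl
  | succ k ih =>
    intro v h
    have hv : v ≠ r := T.ne_root' (by omega)
    have := T.lev v hv
    exact Desc.step v hv (ih _ (by omega))

theorem Desc.child {x s : V} (h : Desc r p x s) (hne : s ≠ x) :
    ∃ c, c ≠ r ∧ p c = x ∧ Desc r p c s := by
  induction h with
  | refl => exact absurd rfl hne
  | step s hs h1 ih =>
    by_cases e : p s = x
    · exact ⟨s, hs, e, Desc.refl⟩
    · obtain ⟨c, h2, h3, h4⟩ := ih e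
      exact ⟨c, h2, h3, Desc.step s hs h4⟩

/-- a branching vertex on a cycle -/
theorem exists_branch [Fintype V] (hc : G.Connected) {K : V → Prop} (hK : Core G K) {r : V}
    (hr : K r) (h3 : Three G K r) :
    ∃ K' v, Core G K' ∧ Three G K' v ∧ ∃ a b, G.Adj v a ∧ G.Adj v b ∧ a ≠ b ∧
      ∀ P : V → Prop, (∀ z z', G.Adj z z' → z ≠ v → z' ≠ v → P z → P z') → P a → P b := by
  obtain ⟨p, T⟩ := exists_BT hc r
  obtain ⟨x, y, -, kx, ky, hxy, hm⟩ := T.core_desc hK hr
  have hly := hm y (T.root_desc _ y rfl) ky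
  have hlx := adj_le hc r hxy.1
  obtain ⟨K', hK'⟩ : ∃ K' : V → Prop, ∀ v, K' v ↔ ∃ k, K k ∧ Desc r p v k := ⟨_, fun _ => Iff.rfl⟩
  have hsub : ∀ v, K v → K' v := fun v h => (hK' v).2 ⟨v, h, Desc.refl⟩
  have hup : ∀ v, v ≠ r → K' v → K' (p v) := by
    intro v hv h
    obtain ⟨k, h1, h2⟩ := (hK' v).1 h
    exact (hK' _).2 ⟨k, h1, (Desc.of_child hv rfl).trans h2⟩
  have hcore : Core G K' := by
    intro v hv
    by_cases kv : K v
    · obtain ⟨a, b, h1, h2, h3, h4, h5⟩ := hK v kv
      exact ⟨a, b, h1, h2, h3, hsub a h4, hsub b h5⟩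
    · obtain ⟨k, h1, h2⟩ := (hK' v).1 hv
      have hvr : v ≠ r := fun e => kv (e ▸ hr)
      obtain ⟨c, h3, h4, h5⟩ := h2.child (fun e => kv (e ▸ h1))
      refine ⟨p v, c, ?_, T.adj v hvr, ?_, hup v hvr hv, (hK' c).2 ⟨k, h1, h5⟩⟩
      · intro e
        have := T.lev v hvr
        have := T.lev c h3
        rw [h4, ← e] at this
        omega
      · have := T.adj c h3
        rw [h4] at this
        exact this.symm
  obtain ⟨x', hx1, hx2, hx3⟩ : ∃ x', x' ≠ y ∧ G.dist r x' = G.dist r y ∧ Desc r p x' x := by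
    by_cases e : G.dist r x = G.dist r y
    · exact ⟨x, hxy.1.ne, e, Desc.refl⟩
    · have hx : x ≠ r := T.ne_root' (by omega)
      have := T.lev x hx
      exact ⟨p x, hxy.2.1, by omega, Desc.of_child hx rfl⟩
  obtain ⟨a, b, hab, har, hbr, hp, hax, hby⟩ := T.lca _ x' y rfl hx1 hx2
  have hax' := hax.trans hx3
  have la := T.lev a har
  have lb := T.lev b hbr
  have ka : K' a := (hK' a).2 ⟨x, kx, hax'⟩
  have kb : K' b := (hK' b).2 ⟨y, ky, hby⟩
  have aa : G.Adj (p a) a := (T.adj a har).symm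
  have ab : G.Adj (p a) b := hp ▸ (T.adj b hbr).symm
  refine ⟨K', p a, hcore, ?_, a, b, aa, ab, hab, ?_⟩
  · by_cases e : p a = r
    · obtain ⟨a1, a2, a3, h1, h2, h3, h4, h5, h6, h7, h8, h9⟩ := h3
      rw [e]
      exact ⟨a1, a2, a3, h1, h2, h3, h4, h5, h6, hsub _ h7, hsub _ h8, hsub _ h9⟩
    · have l2 := T.lev _ e
      refine ⟨a, b, p (p a), hab, ?_, ?_, aa, ab, T.adj _ e, ka, kb, hup _ e (hup _ har ka)⟩
      · intro e'
        rw [← e'] at l2
        omega
      · intro e'
        rw [← e'] at l2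
        rw [← hp] at lb
        omega
  · intro P hP ha
    have nv : ∀ c z, G.dist r (p a) + 1 = G.dist r c → Desc r p c z → z ≠ p a := by
      intro c z h1 h2 e
      have := T.le h2
      rw [e] at this
      omega
    have ch : ∀ c z, G.dist r (p a) + 1 = G.dist r c → Desc r p c z → (P z ↔ P c) := by
      intro c z h1 h2
      induction h2 with
      | refl => exact Iff.rfl
      | step s hs h3 ih =>
        have n1 := nv c _ h1 h3
        have n2 := nv c _ h1 (Desc.step s hs h3)
        rw [← ih]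
        exact ⟨hP _ _ (T.adj s hs) n2 n1, hP _ _ (T.adj s hs).symm n1 n2⟩
    have lb' : G.dist r (p a) + 1 = G.dist r b := hp ▸ lb
    exact (ch b y lb' hby).1 (hP x y hxy.1 (nv a x la hax') (nv b y lb' hby) ((ch a x la hax').2 ha))

end Pool.Agent.H.MP_4617fc_co
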