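import Mathlib
import Pool.Agent.H.MP_4617fc_co.Bfs

set_option autoImplicit false

namespace Pool.Agent.H.MP_4617fc_co

open SimpleGraph Finset

variable {V : Type} {G : SimpleGraph V} {r : V} {p : V → V}

open Classical in
theorem BT.count [Fintype V] [DecidableRel G.Adj] (T : BT G r p) :
    ∑ x, (univ.filter (fun y => NT G p x y)).card + 2 * Fintype.card V =
      2 * G.edgeFinset.card + 2 := by
  have h1 := G.sum_degrees_eq_twice_card_edges
  have h2 : ∀ x, G.degree x = ∑ y, if G.Adj x y then 1 else 0 := by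
    intro x
    rw [← card_neighborFinset_eq_degree, neighborFinset_eq_filter, card_filter]
  have h3 : ∀ x y, (if G.Adj x y then 1 else 0 : ℕ) = (if NT G p x y then 1 else 0) +
      (if x ≠ r ∧ p x = y then 1 else 0) + (if y ≠ r ∧ p y = x then 1 else 0) := by
    intro x y
    by_cases a : x ≠ r ∧ p x = y
    · have b : ¬ (y ≠ r ∧ p y = x) := by
        rintro ⟨b1, b2⟩
        have := T.lev x a.1
        have := T.lev y b1
        rw [a.2] at *
        rw [b2] at *
        omega
      have c : G.Adj x y := a.2 ▸ T.adj x a.1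
      have d : ¬ NT G p x y := fun h => h.2.1 a.2
      rw [if_pos a, if_neg b, if_pos c, if_neg d]
    · by_cases b : y ≠ r ∧ p y = x
      · have c : G.Adj x y := b.2 ▸ (T.adj y b.1).symm
        have d : ¬ NT G p x y := fun h => h.2.2 b.2
        rw [if_neg a, if_pos b, if_pos c, if_neg d]
      · rw [if_neg a, if_neg b]
        by_cases c : G.Adj x y
        · have d : NT G p x y := ⟨c, fun e => a ⟨T.ne_root c e, e⟩,
            fun e => b ⟨T.ne_root c.symm e, e⟩⟩
          rw [if_pos c, if_pos d]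
        · have d : ¬ NT G p x y := fun h => c h.1
          rw [if_neg c, if_neg d]
  have h4 : ∑ x, ∑ y, (if x ≠ r ∧ p x = y then 1 else 0 : ℕ) + 1 = Fintype.card V := by
    have : ∀ x, ∑ y, (if x ≠ r ∧ p x = y then 1 else 0 : ℕ) = if x ≠ r then 1 else 0 := by
      intro x
      by_cases h : x ≠ r
      · simp [h]
      · simp [h]
    rw [sum_congr rfl (fun x _ => this x), ← card_filter, filter_ne', card_erase_add_one (mem_univ r)]
    rfl
  have h5 : ∑ x, ∑ y, (if y ≠ r ∧ p y = x then 1 else 0 : ℕ) + 1 = Fintype.card V := by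
    rw [sum_comm]
    exact h4
  simp only [h2, h3, sum_add_distrib] at h1
  simp only [card_filter]
  omega

theorem BT.cardN [Fintype V] [DecidableRel G.Adj] (T : BT G r p) (N : Finset V)
    (hN : ∀ x, x ∈ N ↔ ∃ y, NT G p x y) :
    N.card + 2 * Fintype.card V ≤ 2 * G.edgeFinset.card + 2 ∧
    (N.card + 2 * Fintype.card V + 1 ≤ 2 * G.edgeFinset.card + 2 ∨
      ∀ x y y', NT G p x y → NT G p x y' → y = y') := by
  classical
  have hc := T.count
  have h1 : N.card = ∑ x, if x ∈ N then 1 else 0 := by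
    rw [← card_filter]
    simp
  have h2 : ∀ x ∈ (univ : Finset V), (if x ∈ N then 1 else 0) ≤
      (univ.filter (fun y => NT G p x y)).card := by
    intro x _
    split_ifs with h
    · obtain ⟨y, hy⟩ := (hN x).1 h
      exact card_pos.2 ⟨y, by simp [hy]⟩
    · omega
  have h3 := sum_le_sum h2
  refine ⟨by omega, ?_⟩
  by_cases h : ∀ x y y', NT G p x y → NT G p x y' → y = y'
  · exact Or.inr h
  · left
    push Not at h
    obtain ⟨x, y, y', h4, h5, h6⟩ := h
    have h7 := sum_lt_sum h2 ⟨x, mem_univ x, by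
      have : 1 < (univ.filter (fun y => NT G p x y)).card :=
        one_lt_card.2 ⟨y, by simp [h4], y', by simp [h5], h6⟩
      split_ifs <;> omega⟩
    omega

theorem config [Fintype V] [DecidableRel G.Adj] (hc : G.Connected) {K : V → Prop}
    (hK : Core G K) {r0 : V} (hr : K r0) (h3 : Three G K r0) :
    ∃ (r : V) (p : V → V) (N : Finset V), BT G r p ∧ (∀ x, x ∈ N ↔ ∃ y, NT G p x y) ∧
      (N.card + 2 * Fintype.card V + 1 ≤ 2 * G.edgeFinset.card + 2 ∨
       (N.card + 2 * Fintype.card V ≤ 2 * G.edgeFinset.card + 2 ∧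
        (∀ x y y', NT G p x y → NT G p x y' → y = y') ∧
        ∃ w y, NT G p w y ∧ G.dist r y ≤ G.dist r w ∧
          ∃ t ∈ N, Desc r p w t ∧ t ≠ w)) := by
  classical
  obtain ⟨K', v, hK', ⟨a1, a2, a3, n1, n2, n3, j1, j2, j3, k1, k2, k3⟩, a, b, ha, hb, hab, hcon⟩ :=
    exists_branch hc hK hr h3
  obtain ⟨r, hr⟩ := antipode hc v a b ha hb hab hcon
  obtain ⟨p, T⟩ := exists_BT hc r
  obtain ⟨N, hN⟩ : ∃ N : Finset V, ∀ x, x ∈ N ↔ ∃ y, NT G p x y :=
    ⟨univ.filter (fun x => ∃ y, NT G p x y), by simp⟩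
  refine ⟨r, p, N, T, hN, ?_⟩
  obtain ⟨c1, c2⟩ := T.cardN N hN
  rcases c2 with c2 | c2
  · exact Or.inl c2
  refine Or.inr ⟨c1, c2, ?_⟩
  have up : ∀ y, G.Adj v y → G.dist r y ≤ G.dist r v → p y ≠ v := by
    intro y hy hl e
    have := T.lev y (T.ne_root hy.symm e)
    rw [e] at this
    omega
  obtain ⟨y, hy, hl⟩ : ∃ y, NT G p v y ∧ G.dist r y ≤ G.dist r v := by
    rcases hr with ⟨x, y, h1, h2, h3, h4, h5⟩ | ⟨y, h1, h2⟩
    · by_cases e : p v = x
      · exact ⟨y, ⟨h3, fun e' => h1 (e.symm.trans e'), up y h3 (by omega)⟩, by omega⟩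
      · exact ⟨x, ⟨h2, e, up x h2 (by omega)⟩, by omega⟩
    · refine ⟨y, ⟨h1, ?_, up y h1 h2.le⟩, h2.le⟩
      intro e
      have := T.lev v (T.ne_root h1 e)
      rw [e] at this
      omega
  refine ⟨v, y, hy, hl, ?_⟩
  have cl : ∀ c, G.Adj v c → c = p v ∨ c = y ∨ p c = v := by
    intro c h
    by_contra hn
    push Not at hn
    exact hn.2.1 (c2 v c y ⟨h, hn.1.symm, hn.2.2⟩ hy)
  obtain ⟨c, kc, hc1, hc2⟩ : ∃ c, K' c ∧ G.Adj v c ∧ p c = v := by
    rcases cl a1 j1 with e1 | e1 | e1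
    · rcases cl a2 j2 with e2 | e2 | e2
      · exact absurd (e1.trans e2.symm) n1
      · rcases cl a3 j3 with e3 | e3 | e3
        · exact absurd (e1.trans e3.symm) n2
        · exact absurd (e2.trans e3.symm) n3
        · exact ⟨a3, k3, j3, e3⟩
      · exact ⟨a2, k2, j2, e2⟩
    · rcases cl a2 j2 with e2 | e2 | e2
      · rcases cl a3 j3 with e3 | e3 | e3
        · exact absurd (e2.trans e3.symm) n3
        · exact absurd (e1.trans e3.symm) n2
        · exact ⟨a3, k3, j3, e3⟩
      · exact absurd (e1.trans e2.symm) n1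
      · exact ⟨a2, k2, j2, e2⟩
    · exact ⟨a1, k1, j1, e1⟩
  obtain ⟨z, z', h1, -, -, h2, -⟩ := T.core_desc hK' kc
  have hcr := T.ne_root hc1.symm hc2
  refine ⟨z, (hN z).2 ⟨z', h2⟩, (Desc.of_child hcr hc2).trans h1, ?_⟩
  intro e
  have := T.le h1
  have := T.lev c hcr
  rw [hc2, ← e] at this
  omega

theorem config2 [Fintype V] [DecidableEq V] [DecidableRel G.Adj] (hc : G.Connected) {K : V → Prop}
    (hK : Core G K) {r0 : V} (hr : K r0) (h3 : Three G K r0) :
    ∃ (r : V) (p : V → V) (N : Finset V) (w : V), BT G r p ∧ (∀ x, x ∈ N ↔ ∃ y, NT G p x y) ∧ N.Nonempty ∧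
      (N.erase w).card + 2 * Fintype.card V + 1 ≤ 2 * G.edgeFinset.card + 2 ∧
      ¬ Up G r p w ∧ (w = r ∨ ∃ t ∈ N, t ≠ w ∧ Desc r p w t) ∧
      ∀ y, NT G p w y → G.dist r y = G.dist r w →
        ∃ t ∈ N, t ≠ w ∧ Desc r p w t ∧ ¬ Down G r y t := by
  obtain ⟨r, p, N, T, hN, h⟩ := config hc hK hr h3
  have hne : N.Nonempty := by
    obtain ⟨z, y, -, -, -, h, -⟩ := T.core_desc hK hr
    exact ⟨z, (hN z).2 ⟨y, h⟩⟩
  rcases h with h | ⟨h1, h2, w, y, h3, h4, t, h5, h6, h7⟩
  · refine ⟨r, p, N, r, T, hN, hne, ?_, ?_, Or.inl rfl, ?_⟩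
    · have := card_erase_le (s := N) (a := r)
      omega
    · rintro ⟨v, hv, -⟩
      exact T.root_notNT hv
    · intro y hy
      exact (T.root_notNT hy).elim
  · have cw : (N.erase w).card + 1 = N.card := card_erase_add_one ((hN w).2 ⟨y, h3⟩)
    have cy : (N.erase y).card + 1 = N.card := card_erase_add_one ((hN y).2 ⟨w, h3.symm⟩)
    have uw : ¬ Up G r p w := by
      rintro ⟨v, hv, hl⟩
      rw [h2 w v y hv h3] at hl
      omega
    by_cases e : G.dist r y = G.dist r w
    · have uy : ¬ Up G r p y := by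
        rintro ⟨v, hv, hl⟩
        rw [h2 y v w hv h3.symm] at hl
        omega
      have lt : G.dist r w < G.dist r t := by
        by_contra hn
        exact h7 (T.eq_of h6 (by omega)).symm
      obtain ⟨s, hs1, hs2⟩ := T.sep _ t w y rfl h3.1.ne e.symm h6
      have sN : s ∈ N ∧ s ≠ w ∧ s ≠ y := by
        rcases hs1 with rfl | hs1
        · refine ⟨h5, h7, ?_⟩
          rintro rfl
          omega
        · refine ⟨?_, ?_, ?_⟩
          · obtain ⟨v, hv, -⟩ := hs1
            exact (hN s).2 ⟨v, hv⟩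
          · rintro rfl
            exact uw hs1
          · rintro rfl
            exact uy hs1
      rcases hs2 with hs2 | hs2
      · refine ⟨r, p, N, w, T, hN, hne, by omega, uw, Or.inr ⟨t, h5, h7, h6⟩, ?_⟩
        intro y' hy' _
        rw [h2 w y' y hy' h3]
        exact ⟨s, sN.1, sN.2.1, hs2⟩
      · refine ⟨r, p, N, y, T, hN, hne, by omega, uy, Or.inr ⟨s, sN.1, sN.2.2, hs2.1⟩, ?_⟩
        intro y' hy' _
        rw [h2 y y' w hy' h3.symm]
        exact ⟨s, sN.1, sN.2.2, hs2⟩
    · refine ⟨r, p, N, w, T, hN, hne, by omega, uw, Or.inr ⟨t, h5, h7, h6⟩, ?_⟩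
      intro y' hy' e'
      rw [h2 w y' y hy' h3] at e'
      exact absurd e' e

theorem config1 [Fintype V] [DecidableEq V] [DecidableRel G.Adj] (hc : G.Connected)
    (hK : Core G (fun _ => True)) {r0 : V} (h3 : Three G (fun _ => True) r0) :
    ∃ (r : V) (p : V → V) (N : Finset V) (w z : V), BT G r p ∧ (∀ x, x ∈ N ↔ ∃ y, NT G p x y) ∧
      ((N.erase w).erase z).card + 2 * Fintype.card V + 2 ≤ 2 * G.edgeFinset.card + 2 ∧
      ¬ Up G r p w ∧ ¬ Up G r p z ∧ G.dist r w < G.dist r z ∧ (∃ c, c ≠ r ∧ p c = w) ∧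
      ∀ y y', NT G p w y → G.dist r y = G.dist r w → G.Adj y y' →
        G.dist r y' = G.dist r y + 1 → ¬ Desc r p y' z := by
  obtain ⟨r, p, N, T, hN, h⟩ := config hc hK (r0 := r0) trivial h3
  obtain ⟨z, z', -, -, -, hz, hm⟩ := T.core_desc hK (x := r) trivial
  have hm' : ∀ c, G.dist r c ≤ G.dist r z := fun c => hm c (T.root_desc _ c rfl) trivial
  have zN : z ∈ N := (hN z).2 ⟨z', hz⟩
  have uz : ¬ Up G r p z := by
    rintro ⟨v, -, hl⟩
    have := hm' v
    omega
  have lz : ∀ w c, c ≠ r → p c = w → G.dist r w < G.dist r z := by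
    intro w c h1 h2
    have := T.lev c h1
    have := hm' c
    rw [h2] at *
    omega
  have ce : ∀ w, G.dist r w < G.dist r z → ((N.erase w).erase z).card + 1 = (N.erase w).card := by
    intro w hw
    refine card_erase_add_one (mem_erase.2 ⟨?_, zN⟩)
    rintro rfl
    omega
  rcases h with h | ⟨h1, h2, w, y, h3, h4, t, h5, h6, h7⟩
  · have zr : z ≠ r := by
      rintro rfl
      exact T.root_notNT hz
    obtain ⟨c, hc1, hc2, -⟩ := (T.root_desc _ z rfl).child zr
    have l := lz r c hc1 hc2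
    refine ⟨r, p, N, r, z, T, hN, ?_, ?_, uz, l, ⟨c, hc1, hc2⟩, ?_⟩
    · have := card_erase_le (s := N) (a := r)
      have := ce r l
      omega
    · rintro ⟨v, hv, -⟩
      exact T.root_notNT hv
    · intro y _ hy
      exact (T.root_notNT hy).elim
  · have cw : (N.erase w).card + 1 = N.card := card_erase_add_one ((hN w).2 ⟨y, h3⟩)
    have cy : (N.erase y).card + 1 = N.card := card_erase_add_one ((hN y).2 ⟨w, h3.symm⟩)
    have uw : ¬ Up G r p w := by
      rintro ⟨v, hv, hl⟩
      rw [h2 w v y hv h3] at hl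
      omega
    obtain ⟨c, hc1, hc2, -⟩ := h6.child h7
    have lw := lz w c hc1 hc2
    have key : ∀ w y y', NT G p w y → G.dist r y = G.dist r w → G.Adj y y' →
        G.dist r y' = G.dist r y + 1 → Desc r p y' z → Desc r p y z := by
      intro w y y' a1 a2 a3 a4 a5
      have e : p y' = y := by
        by_contra hn
        have := h2 y y' w ⟨a3, ?_, hn⟩ a1.symm
        · rw [this] at a4
          omega
        · intro e
          have := T.lev y (T.ne_root a3 e)
          rw [e] at this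
          omega
      exact (Desc.of_child (T.ne_root a3.symm e) e).trans a5
    by_cases e : G.dist r y = G.dist r w ∧ Desc r p y z
    · have uy : ¬ Up G r p y := by
        rintro ⟨v, hv, hl⟩
        rw [h2 y v w hv h3.symm] at hl
        omega
      have ly : G.dist r y < G.dist r z := by omega
      obtain ⟨c', hc1', hc2', -⟩ := e.2.child (by rintro rfl; omega)
      have := ce y ly
      refine ⟨r, p, N, y, z, T, hN, by omega, uy, uz, ly, ⟨c', hc1', hc2'⟩, ?_⟩
      intro u u' a1 a2 a3 a4 a5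
      have a6 := key y u u' a1 a2 a3 a4 a5
      exact a1.1.ne (T.uniq e.2 a6 a2.symm)
    · have := ce w lw
      refine ⟨r, p, N, w, z, T, hN, by omega, uw, uz, lw, ⟨c, hc1, hc2⟩, ?_⟩
      intro u u' a1 a2 a3 a4 a5
      have a6 := key w u u' a1 a2 a3 a4 a5
      rw [h2 w u y a1 h3] at a2 a6
      exact e ⟨a2, a6⟩

end Pool.Agent.H.MP_4617fc_co
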