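import Mathlib

set_option autoImplicit false

namespace Pool.Agent.H.MP_4617fc_co

open SimpleGraph Finset

theorem iso_cycle {V : Type} [Fintype V] [DecidableEq V] (G : SimpleGraph V) [DecidableRel G.Adj]
    (hc : G.Connected) (h2 : ∀ v, G.degree v = 2) : ∃ n, Nonempty (G ≃g cycleGraph n) := by
  obtain ⟨v⟩ := hc.nonempty
  have hcy : G.IsCycles := by
    intro u _
    rw [← coe_neighborFinset, Set.ncard_coe_finset, card_neighborFinset_eq_degree, h2]
  have hn : (G.neighborSet v).Nonempty := by
    obtain ⟨w, hw⟩ := card_pos.1 (show 0 < (G.neighborFinset v).card by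
      rw [card_neighborFinset_eq_degree, h2]; omega)
    exact ⟨w, by simpa using hw⟩
  obtain ⟨p, hp, -⟩ := hcy.exists_cycle_toSubgraph_verts_eq_connectedComponentSupp
    (c := G.connectedComponentMk v) (v := v) (by simp) hn
  have h3 := hp.three_le_length
  obtain ⟨n, hn⟩ : ∃ n, p.length = n + 3 := ⟨p.length - 3, by omega⟩
  obtain ⟨f⟩ := (cycleGraph_isContained_iff (G := G) (n := n + 3) (by omega)).2 ⟨v, p, hp, hn⟩
  have key : ∀ x y, G.Adj (f x) y → ∃ z, (cycleGraph (n + 3)).Adj x z ∧ f z = y := by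
    intro x y hy
    have e : ((cycleGraph (n + 3)).neighborFinset x).image f = G.neighborFinset (f x) := by
      apply eq_of_subset_of_card_le
      · intro u hu
        obtain ⟨z, hz, rfl⟩ := mem_image.1 hu
        rw [mem_neighborFinset] at hz ⊢
        exact f.toHom.map_adj hz
      · rw [card_image_of_injective _ (show Function.Injective f from f.injective), card_neighborFinset_eq_degree,
          card_neighborFinset_eq_degree, h2, cycleGraph_degree_three_le]
    have : y ∈ ((cycleGraph (n + 3)).neighborFinset x).image f := by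
      rw [e]
      simpa using hy
    obtain ⟨z, hz, hz'⟩ := mem_image.1 this
    exact ⟨z, by rwa [mem_neighborFinset] at hz, hz'⟩
  have surj : Function.Surjective f := by
    have : ∀ a b (q : G.Walk a b), (∃ x, f x = a) → ∃ x, f x = b := by
      intro a b q
      induction q with
      | nil => exact id
      | cons h _ ih =>
        rintro ⟨x, rfl⟩
        obtain ⟨z, -, hz⟩ := key x _ h
        exact ih ⟨z, hz⟩
    intro b
    obtain ⟨q⟩ := hc.preconnected (f 0) b
    exact this _ _ q ⟨0, rfl⟩
  refine ⟨n + 3, ⟨Iso.symm ⟨Equiv.ofBijective f ⟨f.injective, surj⟩, ?_⟩⟩⟩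
  intro a b
  constructor
  · intro h
    obtain ⟨z, hz, hz'⟩ := key a _ h
    rwa [f.injective hz'] at hz
  · exact fun h => f.toHom.map_adj h

theorem three_of_not_cycle {V : Type} [Fintype V] [DecidableEq V] (G : SimpleGraph V)
    [DecidableRel G.Adj] (hc : G.Connected) (h2 : ∀ v, 2 ≤ G.degree v)
    (hn : ∀ n, IsEmpty (G ≃g cycleGraph n)) : ∃ v, 3 ≤ G.degree v := by
  by_contra h
  push Not at h
  obtain ⟨n, ⟨e⟩⟩ := iso_cycle G hc (fun v => by have := h v; have := h2 v; omega)
  exact (hn n).false e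

theorem two_le_degree {V : Type} [Fintype V] [DecidableEq V] (G : SimpleGraph V)
    [DecidableRel G.Adj] (h3 : 3 ≤ Fintype.card V)
    (hv : ∀ v, (G.induce {x | x ≠ v}).Connected) (v : V) : 2 ≤ G.degree v := by
  by_contra h
  obtain ⟨u, hu1, hu⟩ : ∃ u, u ≠ v ∧ ∀ x, G.Adj v x → x = u := by
    by_cases h0 : ∃ u, G.Adj v u
    · obtain ⟨u, hu⟩ := h0
      refine ⟨u, hu.ne.symm, fun x hx => ?_⟩
      exact card_le_one.1 (show (G.neighborFinset v).card ≤ 1 by
        rw [card_neighborFinset_eq_degree]; omega) x (by simpa using hx) u (by simpa using hu)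
    · obtain ⟨u, hu⟩ := Fintype.exists_ne_of_one_lt_card (by omega) v
      exact ⟨u, hu, fun x hx => absurd ⟨x, hx⟩ h0⟩
  obtain ⟨w, hw1, hw2⟩ : ∃ w, w ≠ v ∧ w ≠ u := by
    by_contra hh
    push Not at hh
    have : (univ : Finset V) ⊆ {v, u} := by
      intro x _
      by_cases e : x = v
      · simp [e]
      · simp [hh x e]
    have h1 := card_le_card this
    have h2 : ({v, u} : Finset V).card ≤ 2 := card_le_two
    rw [card_univ] at h1
    omega
  obtain ⟨q⟩ := (hv u).preconnected ⟨v, hu1.symm⟩ ⟨w, hw2⟩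
  have : ∀ a b (q : (G.induce {x | x ≠ u}).Walk a b), a.1 = v → b.1 = v := by
    intro a b q
    induction q with
    | nil => exact id
    | @cons a c _ h _ ih =>
      intro e
      have h' : G.Adj a.1 c.1 := h
      rw [e] at h'
      exact absurd (hu _ h') c.2
  exact hw1 (this _ _ q rfl)

end Pool.Agent.H.MP_4617fc_co
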