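import Mathlib
import Pool.Agent.H.MP_4617fc_co.Conf

set_option autoImplicit false

namespace Pool.Agent.H.MP_4617fc_co

open SimpleGraph Finset

variable {V : Type} {G : SimpleGraph V} {r : V} {p : V → V}

def Def (r : V) (p : V → V) (S : Finset V) (x : V) : Prop := ∀ s ∈ S, ¬ Desc r p x s

theorem BT.sepS (T : BT G r p) {S : Finset V} (hU : ∀ u, Up G r p u → u ∈ S) {x y : V}
    (hne : x ≠ y) (hl : G.dist r x = G.dist r y) (h : ¬ Def r p S x ∨ ¬ Def r p S y) :
    ∃ t ∈ S, (G.dist x t + G.dist r x = G.dist r t ∧ G.dist x t < G.dist y t) ∨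
      (G.dist y t + G.dist r x = G.dist r t ∧ G.dist y t < G.dist x t) := by
  have key : ∀ x y : V, x ≠ y → G.dist r x = G.dist r y → ¬ Def r p S x →
      ∃ t ∈ S, (G.dist x t + G.dist r x = G.dist r t ∧ G.dist x t < G.dist y t) ∨
      (G.dist y t + G.dist r x = G.dist r t ∧ G.dist y t < G.dist x t) := by
    intro x y hne hl h
    unfold Def at h
    push Not at h
    obtain ⟨s, hs, hD⟩ := h
    obtain ⟨t, ht, ht'⟩ := T.sep _ s x y rfl hne hl hD
    refine ⟨t, ?_, ?_⟩
    · rcases ht with rfl | ht
      · exact hs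
      · exact hU t ht
    · have a1 := tri T.conn r x t
      have a2 := tri T.conn r y t
      rcases ht' with ⟨h1, h2⟩ | ⟨h1, h2⟩
      · have := T.down h1
        unfold Down at *
        omega
      · have := T.down h1
        unfold Down at *
        omega
  rcases h with h | h
  · exact key x y hne hl h
  · obtain ⟨t, ht, h'⟩ := key y x hne.symm hl.symm h
    exact ⟨t, ht, by omega⟩

theorem zero_sep (hc : G.Connected) {a b c d : V} (h1 : c ≠ a) (h2 : d ≠ a) :
    min (G.dist a a) (G.dist b a) ≠ min (G.dist c a) (G.dist d a) := by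
  have := hc.pos_dist_of_ne h1
  have := hc.pos_dist_of_ne h2
  rw [dist_self]
  omega

theorem BT.nt_h (T : BT G r p) {a b : V} (h : G.Adj a b) (e : G.dist r a = G.dist r b) :
    NT G p a b := by
  refine ⟨h, fun e' => ?_, fun e' => ?_⟩
  · have := T.lev a (T.ne_root h e')
    rw [e'] at this
    omega
  · have := T.lev b (T.ne_root h.symm e')
    rw [e'] at this
    omega

theorem BT.nt_v (T : BT G r p) {a b : V} (h : G.Adj a b) (e : G.dist r b = G.dist r a + 1)
    (hn : p b ≠ a) : NT G p a b := by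
  refine ⟨h, fun e' => ?_, hn⟩
  have := T.lev a (T.ne_root h e')
  rw [e'] at this
  omega

theorem BT.edges (T : BT G r p) {S : Finset V} (hr : r ∈ S) (hU : ∀ u, Up G r p u → u ∈ S)
    (hlev : ∀ x y x' y', NT G p x x' → NT G p y y' → x ≠ y → G.dist r x = G.dist r y →
      x ∈ S ∨ y ∈ S)
    (hV : ∀ a b c d, G.Adj a b → G.Adj c d → G.dist r b = G.dist r a + 1 →
      G.dist r d = G.dist r c + 1 → G.dist r a = G.dist r c → b ≠ d → Def r p S b → Def r p S d →
      ∃ s ∈ S, min (G.dist a s) (G.dist b s) ≠ min (G.dist c s) (G.dist d s))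
    (hH : ∀ a b d, NT G p a b → G.dist r a = G.dist r b → b ∉ S → G.Adj a d →
      G.dist r d = G.dist r a + 1 → Def r p S d →
      ∃ s ∈ S, min (G.dist a s) (G.dist b s) ≠ min (G.dist a s) (G.dist d s)) :
    ∀ a b c d : V, G.Adj a b → G.Adj c d → s(a, b) ≠ s(c, d) →
      ∃ s ∈ S, min (G.dist a s) (G.dist b s) ≠ min (G.dist c s) (G.dist d s) := by
  have hc := T.conn
  have HV : ∀ a b c d : V, G.Adj a b → G.Adj c d → G.dist r a = G.dist r b →
      G.dist r a = G.dist r c → G.dist r d = G.dist r c + 1 →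
      ∃ s ∈ S, min (G.dist a s) (G.dist b s) ≠ min (G.dist c s) (G.dist d s) := by
    intro a b c d h1 h2 l1 l2 l3
    have nt := T.nt_h h1 l1
    have da : d ≠ a := by rintro rfl; omega
    have db : d ≠ b := by rintro rfl; omega
    by_cases hd : Def r p S d
    · by_cases ea : c = a
      · subst ea
        by_cases hb : b ∈ S
        · refine ⟨b, hb, ?_⟩
          rw [min_comm]
          exact zero_sep hc h1.ne db
        · exact hH c b d nt l1 hb h2 l3 hd
      · by_cases eb : c = b
        · subst eb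
          by_cases ha : a ∈ S
          · exact ⟨a, ha, zero_sep hc ea da⟩
          · obtain ⟨s, hs, h⟩ := hH c a d nt.symm l1.symm ha h2 l3 hd
            exact ⟨s, hs, by rw [min_comm]; exact h⟩
        · rcases hlev a b b a nt nt.symm h1.ne l1 with h | h
          · exact ⟨a, h, zero_sep hc ea da⟩
          · refine ⟨b, h, ?_⟩
            rw [min_comm]
            exact zero_sep hc eb db
    · unfold Def at hd
      push Not at hd
      obtain ⟨s, hs, hD⟩ := hd
      have a0 := T.down hD
      have a1 := tri hc r a s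
      have a2 := tri hc r b s
      unfold Down at a0
      exact ⟨s, hs, by omega⟩
  have main : ∀ a b c d : V, G.Adj a b → G.Adj c d → s(a, b) ≠ s(c, d) →
      G.dist r a ≤ G.dist r b → G.dist r c ≤ G.dist r d →
      ∃ s ∈ S, min (G.dist a s) (G.dist b s) ≠ min (G.dist c s) (G.dist d s) := by
    intro a b c d h1 h2 hne l1 l2
    by_cases l3 : G.dist r a = G.dist r c
    swap
    · refine ⟨r, hr, ?_⟩
      rw [G.dist_comm (u := a), G.dist_comm (u := b), G.dist_comm (u := c), G.dist_comm (u := d)]
      omega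
    have b1 := adj_le hc r h1.symm
    have b2 := adj_le hc r h2.symm
    by_cases e1 : G.dist r a = G.dist r b
    · by_cases e2 : G.dist r c = G.dist r d
      · have n1 := T.nt_h h1 e1
        have n2 := T.nt_h h2 e2
        have one : ∀ a b c d : V, NT G p a b → NT G p c d → a ≠ c → a ≠ d → c ≠ b →
            G.dist r a = G.dist r c →
            ∃ s ∈ S, min (G.dist a s) (G.dist b s) ≠ min (G.dist c s) (G.dist d s) := by
          intro a b c d n1 n2 m1 m2 m3 l
          rcases hlev a c b d n1 n2 m1 l with h | h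
          · exact ⟨a, h, zero_sep hc m1.symm m2.symm⟩
          · exact ⟨c, h, (zero_sep hc m1 m3.symm).symm⟩
        by_cases ac : a = c
        · subst ac
          have bd : b ≠ d := by rintro rfl; exact hne rfl
          obtain ⟨s, hs, h⟩ := one b a d a n1.symm n2.symm bd h1.ne.symm h2.ne.symm (by omega)
          exact ⟨s, hs, by omega⟩
        · by_cases ad : a = d
          · subst ad
            have bc : b ≠ c := by rintro rfl; exact hne Sym2.eq_swap
            obtain ⟨s, hs, h⟩ := one b a c a n1.symm n2 bc h1.ne.symm h2.ne (by omega)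
            exact ⟨s, hs, by omega⟩
          · by_cases cb : c = b
            · subst cb
              obtain ⟨s, hs, h⟩ := one a c d c n1 n2.symm ad ac h2.ne.symm (by omega)
              exact ⟨s, hs, by omega⟩
            · exact one a b c d n1 n2 ac ad cb l3
      · exact HV a b c d h1 h2 e1 l3 (by omega)
    · by_cases e2 : G.dist r c = G.dist r d
      · obtain ⟨s, hs, h⟩ := HV c d a b h2 h1 e2 l3.symm (by omega)
        exact ⟨s, hs, h.symm⟩
      · by_cases bd : b = d
        · subst bd
          have ac : a ≠ c := by rintro rfl; exact hne rfl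
          by_cases e : p b = a
          · have : p b ≠ c := fun e' => ac (e.symm.trans e')
            exact ⟨c, hU c ⟨b, T.nt_v h2 (by omega) this, by omega⟩,
              (zero_sep hc ac h2.ne.symm).symm⟩
          · exact ⟨a, hU a ⟨b, T.nt_v h1 (by omega) e, by omega⟩,
              zero_sep hc ac.symm h1.ne.symm⟩
        · by_cases hd : ¬ Def r p S b ∨ ¬ Def r p S d
          · obtain ⟨t, ht, h⟩ := T.sepS hU bd (by omega) hd
            have a1 := tri hc r a t
            have a2 := tri hc r c t
            exact ⟨t, ht, by omega⟩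
          · push Not at hd
            exact hV a b c d h1 h2 (by omega) (by omega) l3 bd hd.1 hd.2
  intro a b c d h1 h2 hne
  rcases le_total (G.dist r a) (G.dist r b) with l1 | l1 <;>
    rcases le_total (G.dist r c) (G.dist r d) with l2 | l2
  · exact main a b c d h1 h2 hne l1 l2
  · obtain ⟨s, hs, h⟩ := main a b d c h1 h2.symm (by rwa [Sym2.eq_swap (a := d)]) l1 l2
    exact ⟨s, hs, by omega⟩
  · obtain ⟨s, hs, h⟩ := main b a c d h1.symm h2 (by rwa [Sym2.eq_swap (a := b)]) l1 l2
    exact ⟨s, hs, by omega⟩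
  · obtain ⟨s, hs, h⟩ := main b a d c h1.symm h2.symm
      (by rwa [Sym2.eq_swap (a := b), Sym2.eq_swap (a := d)]) l1 l2
    exact ⟨s, hs, by omega⟩

/-- minimum degree two, not a cycle: one set of size at most `2c - 1` for vertices and edges -/
theorem regime1 [Fintype V] [DecidableEq V] [DecidableRel G.Adj] (hc : G.Connected)
    (hK : Core G (fun _ => True)) {r0 : V} (h3 : Three G (fun _ => True) r0) :
    ∃ S : Finset V, S.card + 2 * Fintype.card V + 1 ≤ 2 * G.edgeFinset.card + 2 ∧
      (∀ u v : V, u ≠ v → ∃ s ∈ S, G.dist u s ≠ G.dist v s) ∧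
      ∀ a b c d : V, G.Adj a b → G.Adj c d → s(a, b) ≠ s(c, d) →
        ∃ s ∈ S, min (G.dist a s) (G.dist b s) ≠ min (G.dist c s) (G.dist d s) := by
  obtain ⟨r, p, N, w, z, T, hN, hcard, uw, uz, lwz, ⟨c, hc1, hc2⟩, hZ⟩ := config1 hc hK h3
  obtain ⟨S, hS⟩ : ∃ S : Finset V, S = insert r ((N.erase w).erase z) := ⟨_, rfl⟩
  have hr : r ∈ S := by simp [hS]
  have mem : ∀ x y, NT G p x y → x ≠ w → x ≠ z → x ∈ S := by
    intro x y h h1 h2
    rw [hS]
    exact mem_insert_of_mem (mem_erase.2 ⟨h2, mem_erase.2 ⟨h1, (hN x).2 ⟨y, h⟩⟩⟩)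
  have hU : ∀ u, Up G r p u → u ∈ S := by
    intro u hu
    obtain ⟨v, hv, hl⟩ := hu
    exact mem u v hv (by rintro rfl; exact uw ⟨v, hv, hl⟩) (by rintro rfl; exact uz ⟨v, hv, hl⟩)
  have hdef : ∀ x, Def r p S x → Desc r p x z := by
    intro x hx
    obtain ⟨l, y, h1, -, -, h2, h3⟩ := T.core_desc hK (x := x) trivial
    by_cases e : l = z
    · exact e ▸ h1
    · refine absurd h1 (hx l (mem l y h2 ?_ e))
      rintro rfl
      have := h3 c (h1.trans (Desc.of_child hc1 hc2)) trivial
      have := T.lev c hc1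
      rw [hc2] at this
      omega
  have nd : ∀ x y, x ≠ y → G.dist r x = G.dist r y → ¬ Def r p S x ∨ ¬ Def r p S y := by
    intro x y h l
    by_contra hn
    push Not at hn
    exact h (T.uniq (hdef x hn.1) (hdef y hn.2) l)
  refine ⟨S, ?_, ?_, T.edges hr hU ?_ ?_ ?_⟩
  · have := card_insert_le r ((N.erase w).erase z)
    rw [hS]
    omega
  · intro u v h
    by_cases l : G.dist r u = G.dist r v
    · obtain ⟨t, ht, h'⟩ := T.sepS hU h l (nd u v h l)
      exact ⟨t, ht, by omega⟩
    · exact ⟨r, hr, by rwa [G.dist_comm (u := u), G.dist_comm (u := v)]⟩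
  · intro x y x' y' h1 h2 h l
    by_contra hn
    push Not at hn
    have a1 : x = w ∨ x = z := by
      by_contra hh
      push Not at hh
      exact hn.1 (mem x x' h1 hh.1 hh.2)
    have a2 : y = w ∨ y = z := by
      by_contra hh
      push Not at hh
      exact hn.2 (mem y y' h2 hh.1 hh.2)
    rcases a1 with rfl | rfl <;> rcases a2 with rfl | rfl
    · exact h rfl
    · omega
    · omega
    · exact h rfl
  · intro a b c d _ _ l1 l2 l3 h h1 h2
    rcases nd b d h (by omega) with h' | h'
    · exact absurd h1 h'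
    · exact absurd h2 h'
  · intro a b d h1 l1 hb h2 l2 hd
    have hz := hdef d hd
    have lz := T.le hz
    have : b = w := by
      by_contra hh
      exact hb (mem b a h1.symm hh (by rintro rfl; omega))
    subst this
    exact absurd hz (hZ a d h1.symm l1 h2 l2)

theorem BT.pend (T : BT G r p) {x s : V} (_hx : x ≠ r) (h : ∀ y, Desc r p x y → ∀ y', ¬ NT G p y y')
    (hs : ¬ Desc r p x s) : ∀ k y, G.dist s y = k → Desc r p x y →
      G.dist s y = G.dist s (p y) + 1 := by
  intro k
  induction k using Nat.strong_induction_on with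
  | _ k ih =>
    intro y hk hy
    obtain ⟨y', ha, hl⟩ := pred T.conn s y (by rintro rfl; exact hs hy)
    by_cases e : p y = y'
    · rw [e]
      omega
    · have e' : p y' = y := by
        by_contra hn
        exact h y hy y' ⟨ha, e, hn⟩
      have := ih (G.dist s y') (by omega) y' rfl
        (hy.trans (Desc.of_child (T.ne_root ha.symm e') e'))
      rw [e'] at this
      omega

theorem BT.regime2 (T : BT G r p) {N S : Finset V} {w : V} (hN : ∀ x, x ∈ N ↔ ∃ y, NT G p x y)
    (uw : ¬ Up G r p w) (hw : w = r ∨ ∃ t ∈ N, t ≠ w ∧ Desc r p w t)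
    (hM : ∀ y, NT G p w y → G.dist r y = G.dist r w →
        ∃ t ∈ N, t ≠ w ∧ Desc r p w t ∧ ¬ Down G r y t)
    (hr : r ∈ S) (mem : ∀ x ∈ N, x ≠ w → x ∈ S) :
    (∀ x, Def r p S x → x ≠ r ∧ ∀ y, Desc r p x y → ∀ y', ¬ NT G p y y') ∧
    (((∀ x y, x ≠ y → p x = p y → Def r p S x → Def r p S y → False) →
      (∀ u v : V, u ≠ v → ∃ s ∈ S, G.dist u s ≠ G.dist v s) ∧
      ∀ a b c d : V, G.Adj a b → G.Adj c d → s(a, b) ≠ s(c, d) →
        ∃ s ∈ S, min (G.dist a s) (G.dist b s) ≠ min (G.dist c s) (G.dist d s)) ∧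
    ((∀ x, ¬ Def r p S x) → ∀ x a b, G.Adj a b →
      ∃ s ∈ S, G.dist x s ≠ min (G.dist a s) (G.dist b s))) := by
  have hc := T.conn
  have hU : ∀ u, Up G r p u → u ∈ S := by
    intro u hu
    obtain ⟨v, hv, hl⟩ := hu
    exact mem u ((hN u).2 ⟨v, hv⟩) (by rintro rfl; exact uw ⟨v, hv, hl⟩)
  have hp : ∀ x, Def r p S x → x ≠ r ∧ ∀ y, Desc r p x y → ∀ y', ¬ NT G p y y' := by
    intro x hx
    have xr : x ≠ r := by
      rintro rfl
      exact hx x hr Desc.refl
    refine ⟨xr, fun y hy y' hy' => ?_⟩
    by_cases e : y = w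
    · subst e
      rcases hw with rfl | ⟨t, h1, h2, h3⟩
      · exact hx y hr hy
      · exact hx t (mem t h1 h2) (hy.trans h3)
    · exact hx y (mem y ((hN y).2 ⟨y', hy'⟩) e) hy
  have form : ∀ x, Def r p S x → ∀ s ∈ S, G.dist x s = G.dist (p x) s + 1 := by
    intro x hx s hs
    have := T.pend (hp x hx).1 (hp x hx).2 (hx s hs) _ x rfl Desc.refl
    rwa [G.dist_comm (u := s), G.dist_comm (u := s)] at this
  have par : ∀ a b, G.Adj a b → G.dist r b = G.dist r a + 1 → Def r p S b → p b = a := by
    intro a b h l hb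
    by_contra hn
    exact (hp b hb).2 b Desc.refl a (T.nt_v h l hn).symm
  have hlev : ∀ x y x' y', NT G p x x' → NT G p y y' → x ≠ y → x ∈ S ∨ y ∈ S := by
    intro x y x' y' h1 h2 h
    by_cases e : x = w
    · exact Or.inr (mem y ((hN y).2 ⟨y', h2⟩) (fun e' => h (e.trans e'.symm)))
    · exact Or.inl (mem x ((hN x).2 ⟨x', h1⟩) e)
  have hMM : ∀ a b, NT G p a b → G.dist r a = G.dist r b → b ∉ S →
      ∃ t ∈ S, G.dist b t < G.dist a t := by
    intro a b h1 l1 hb
    have : b = w := by
      by_contra hh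
      exact hb (mem b ((hN b).2 ⟨a, h1.symm⟩) hh)
    subst this
    obtain ⟨t, t1, t2, t3, t4⟩ := hM a h1.symm l1
    have a1 := T.down t3
    have a2 := tri hc r a t
    unfold Down at *
    exact ⟨t, mem t t1 t2, by omega⟩
  refine ⟨hp, fun hsib => ?_, fun hnd x a b hab => ?_⟩
  · have vv : ∀ k u v, G.dist r u = k → G.dist r u = G.dist r v → u ≠ v →
        ∃ s ∈ S, G.dist u s ≠ G.dist v s := by
      intro k
      induction k using Nat.strong_induction_on with
      | _ k ih =>
        intro u v hk l h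
        by_cases hd : ¬ Def r p S u ∨ ¬ Def r p S v
        · obtain ⟨t, ht, h'⟩ := T.sepS hU h l hd
          exact ⟨t, ht, by omega⟩
        · push Not at hd
          have l1 := T.lev u (hp u hd.1).1
          have l2 := T.lev v (hp v hd.2).1
          obtain ⟨s, hs, h'⟩ := ih (G.dist r (p u)) (by omega) (p u) (p v) rfl (by omega)
            (fun e => hsib u v h e hd.1 hd.2)
          have := form u hd.1 s hs
          have := form v hd.2 s hs
          exact ⟨s, hs, by omega⟩
    refine ⟨?_, T.edges hr hU (fun x y x' y' h1 h2 h _ => hlev x y x' y' h1 h2 h) ?_ ?_⟩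
    · intro u v h
      by_cases l : G.dist r u = G.dist r v
      · exact vv _ u v rfl l h
      · exact ⟨r, hr, by rwa [G.dist_comm (u := u), G.dist_comm (u := v)]⟩
    · intro a b c d h1 h2 l1 l2 l3 h hb hd
      have e1 := par a b h1 l1 hb
      have e2 := par c d h2 l2 hd
      obtain ⟨s, hs, h'⟩ := vv _ a c rfl l3 (fun e => hsib b d h (by rw [e1, e2, e]) hb hd)
      have f1 := form b hb s hs
      have f2 := form d hd s hs
      rw [e1] at f1
      rw [e2] at f2
      exact ⟨s, hs, by omega⟩
    · intro a b d h1 l1 hb h2 l2 hd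
      obtain ⟨t, ht, h⟩ := hMM a b h1 l1 hb
      have f := form d hd t ht
      rw [par a d h2 l2 hd] at f
      exact ⟨t, ht, by omega⟩
  · have main : ∀ x a b, G.Adj a b → G.dist r a ≤ G.dist r b →
        ∃ s ∈ S, G.dist x s ≠ min (G.dist a s) (G.dist b s) := by
      intro x a b h l
      by_cases l1 : G.dist r x = G.dist r a
      swap
      · refine ⟨r, hr, ?_⟩
        rw [G.dist_comm (u := a), G.dist_comm (u := b), G.dist_comm (u := x)]
        omega
      by_cases l2 : G.dist r a = G.dist r b
      · have nt := T.nt_h h l2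
        have z : ∀ a b, a ∈ S → x ≠ a → ∃ s ∈ S, G.dist x s ≠ min (G.dist a s) (G.dist b s) := by
          intro a b h1 h2
          refine ⟨a, h1, ?_⟩
          have := hc.pos_dist_of_ne h2
          rw [dist_self]
          omega
        have one : ∀ a b, NT G p a b → G.dist r a = G.dist r b → x = a →
            ∃ s ∈ S, G.dist x s ≠ min (G.dist a s) (G.dist b s) := by
          intro a b h1 h2 h3
          by_cases hb : b ∈ S
          · obtain ⟨s, hs, h⟩ := z b a hb (h3 ▸ h1.1.ne)
            exact ⟨s, hs, by omega⟩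
          · obtain ⟨t, ht, h⟩ := hMM a b h1 h2 hb
            exact ⟨t, ht, by rw [h3]; omega⟩
        by_cases e1 : x = a
        · exact one a b nt l2 e1
        · by_cases e2 : x = b
          · obtain ⟨s, hs, h⟩ := one b a nt.symm l2.symm e2
            exact ⟨s, hs, by omega⟩
          · rcases hlev a b b a nt nt.symm h.ne with h' | h'
            · exact z a b h' e1
            · obtain ⟨s, hs, h⟩ := z b a h' e2
              exact ⟨s, hs, by omega⟩
      · have hd := hnd b
        unfold Def at hd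
        push Not at hd
        obtain ⟨s, hs, hD⟩ := hd
        have a0 := T.down hD
        have a1 := tri hc r x s
        unfold Down at a0
        exact ⟨s, hs, by omega⟩
    rcases le_total (G.dist r a) (G.dist r b) with l | l
    · exact main x a b hab l
    · obtain ⟨s, hs, h⟩ := main x b a hab.symm l
      exact ⟨s, hs, by omega⟩

theorem core_of_degree [Fintype V] [DecidableRel G.Adj] (h : ∀ v, 2 ≤ G.degree v) :
    Core G (fun _ => True) := by
  intro v _
  obtain ⟨a, ha, b, hb, hab⟩ := one_lt_card.1 (show 1 < (G.neighborFinset v).card from h v)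
  exact ⟨a, b, hab, by simpa using ha, by simpa using hb, trivial, trivial⟩

theorem three_of_degree [Fintype V] [DecidableRel G.Adj] {v : V} (h : 3 ≤ G.degree v) :
    Three G (fun _ => True) v := by
  obtain ⟨a, ha, b, hb, c, hc, h1, h2, h3⟩ :=
    two_lt_card.1 (show 2 < (G.neighborFinset v).card from h)
  exact ⟨a, b, c, h1, h2, h3, by simpa using ha, by simpa using hb, by simpa using hc,
    trivial, trivial, trivial⟩

/-- minimum degree two, not a cycle: a mixed resolving set of size at most `2c` -/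
theorem regime3 [Fintype V] [DecidableEq V] [DecidableRel G.Adj] (hc : G.Connected)
    (hK : Core G (fun _ => True)) {r0 : V} (h3 : Three G (fun _ => True) r0) :
    ∃ S : Finset V, S.card + 2 * Fintype.card V ≤ 2 * G.edgeFinset.card + 2 ∧
      (∀ u v : V, u ≠ v → ∃ s ∈ S, G.dist u s ≠ G.dist v s) ∧
      (∀ a b c d : V, G.Adj a b → G.Adj c d → s(a, b) ≠ s(c, d) →
        ∃ s ∈ S, min (G.dist a s) (G.dist b s) ≠ min (G.dist c s) (G.dist d s)) ∧
      ∀ x a b, G.Adj a b → ∃ s ∈ S, G.dist x s ≠ min (G.dist a s) (G.dist b s) := by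
  obtain ⟨r, p, N, w, T, hN, -, hcard, uw, hw, hM⟩ := config2 hc hK (r0 := r0) trivial h3
  obtain ⟨h1, h2, h3⟩ := T.regime2 (S := insert r (N.erase w)) hN uw hw hM (by simp)
    (fun x hx e => mem_insert_of_mem (mem_erase.2 ⟨e, hx⟩))
  have nd : ∀ x, ¬ Def r p (insert r (N.erase w)) x := by
    intro x hx
    obtain ⟨l, y, a1, -, -, a2, -⟩ := T.core_desc hK (x := x) trivial
    exact (h1 x hx).2 l a1 y a2
  obtain ⟨h4, h5⟩ := h2 (fun x _ _ _ hx _ => nd x hx)
  refine ⟨_, ?_, h4, h5, h3 nd⟩
  have := card_insert_le r (N.erase w)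
  omega

end Pool.Agent.H.MP_4617fc_co
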