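import Mathlib
import Pool.Agent.H.MP_4617fc_co.Res

set_option autoImplicit false

namespace Pool.Agent.H.MP_4617fc_co

open SimpleGraph Finset

variable {V : Type} {G : SimpleGraph V} {r : V} {p : V → V}

theorem exists_core [DecidableEq V] [DecidableRel G.Adj] : ∀ (n : ℕ) (K : Finset V), K.card = n →
    2 * K.card < ∑ x ∈ K, (K.filter (fun y => G.Adj x y)).card →
    ∃ K' : V → Prop, Core G K' ∧ ∃ v, K' v ∧ Three G K' v := by
  intro n
  induction n with
  | zero =>
    intro K hK h
    rw [card_eq_zero.1 hK] at h
    simp at h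
  | succ n ih =>
    intro K hK h
    by_cases hv : ∃ v ∈ K, (K.filter (fun y => G.Adj v y)).card ≤ 1
    · obtain ⟨v, hv, hv1⟩ := hv
      have c1 : (K.erase v).card + 1 = K.card := card_erase_add_one hv
      refine ih (K.erase v) (by omega) ?_
      have e1 := sum_erase_add K (fun x => (K.filter (fun y => G.Adj x y)).card) hv
      have e2 : ∀ x ∈ K.erase v, (K.filter (fun y => G.Adj x y)).card ≤
          ((K.erase v).filter (fun y => G.Adj x y)).card + if G.Adj v x then 1 else 0 := by
        intro x _
        split_ifs with hx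
        · refine le_trans (card_le_card (t := insert v ((K.erase v).filter (fun y => G.Adj x y)))
            ?_) (card_insert_le _ _)
          intro y hy
          by_cases e : y = v
          · simp [e]
          · simp only [mem_filter] at hy
            simp [e, hy]
        · refine card_le_card ?_
          intro y hy
          simp only [mem_filter] at hy
          have : y ≠ v := by
            rintro rfl
            exact hx hy.2.symm
          simp [this, hy]
      have e3 := sum_le_sum e2
      rw [sum_add_distrib, ← card_filter] at e3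
      have e4 : ((K.erase v).filter (fun x => G.Adj v x)).card ≤
          (K.filter (fun y => G.Adj v y)).card :=
        card_le_card (filter_subset_filter _ (erase_subset v K))
      omega
    · push Not at hv
      refine ⟨fun x => x ∈ K, ?_, ?_⟩
      · intro v h
        obtain ⟨a, ha, b, hb, hab⟩ := one_lt_card.1 (hv v h)
        simp only [mem_filter] at ha hb
        exact ⟨a, b, hab, ha.2, hb.2, ha.1, hb.1⟩
      · by_contra hn
        have : ∀ x ∈ K, (K.filter (fun y => G.Adj x y)).card ≤ 2 := by
          intro x hx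
          by_contra h2
          obtain ⟨a, ha, b, hb, c, hc, h1, h2, h3⟩ := two_lt_card.1 (not_le.1 h2)
          simp only [mem_filter] at ha hb hc
          exact hn ⟨x, hx, a, b, c, h1, h2, h3, ha.2, hb.2, hc.2, ha.1, hb.1, hc.1⟩
        have := sum_le_card_nsmul K _ 2 this
        simp only [smul_eq_mul] at this
        omega

theorem BT.walk (T : BT G r p) {a s : V} (ha : a ≠ r) (h : Desc r p a s) :
    ∃ q : G.Walk (p a) s, q.length + G.dist r (p a) = G.dist r s ∧
      ∀ w ∈ q.support, w = p a ∨ w = s ∨ (Desc r p a w ∧ ∃ c, c ≠ r ∧ p c = w) := by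
  induction h with
  | refl =>
    refine ⟨Walk.cons (T.adj a ha).symm Walk.nil, ?_, ?_⟩
    · have := T.lev a ha
      simp only [Walk.length_cons, Walk.length_nil]
      omega
    · intro w hw
      simp only [Walk.support_cons, Walk.support_nil, List.mem_cons, List.not_mem_nil,
        or_false] at hw
      rcases hw with h | h
      · exact Or.inl h
      · exact Or.inr (Or.inl h)
  | step s hs h1 ih =>
    obtain ⟨q, hq1, hq2⟩ := ih
    refine ⟨q.concat (T.adj s hs).symm, ?_, ?_⟩
    · have := T.lev s hs
      rw [Walk.length_concat]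
      omega
    · intro w hw
      rw [Walk.support_concat] at hw
      simp only [List.mem_append, List.mem_singleton] at hw
      rcases hw with hw | hw
      · rcases hq2 w hw with h | h | h
        · exact Or.inl h
        · exact Or.inr (Or.inr ⟨h ▸ h1, s, hs, h.symm⟩)
        · exact Or.inr (Or.inr h)
      · exact Or.inr (Or.inl hw)

theorem legs [Fintype V] [DecidableEq V] [DecidableRel G.Adj] (hc : G.Connected)
    (hm : Fintype.card V + 1 ≤ G.edgeFinset.card) :
    ∃ S : Finset V, S.card + 2 * Fintype.card V ≤
      (∑ v ∈ Finset.univ.filter (fun v => 3 ≤ G.degree v),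
              ({u : V | G.degree u = 1 ∧ ∃ p : G.Walk v u, p.IsPath ∧
                  ∀ w ∈ p.support, w ≠ v → w ≠ u → G.degree w = 2}.ncard - 1) : ℕ)
        + 2 * G.edgeFinset.card + 2 ∧
      (∀ u v : V, u ≠ v → ∃ s ∈ S, G.dist u s ≠ G.dist v s) ∧
      ∀ a b c d : V, G.Adj a b → G.Adj c d → s(a, b) ≠ s(c, d) →
        ∃ s ∈ S, min (G.dist a s) (G.dist b s) ≠ min (G.dist c s) (G.dist d s) := by
  classical
  obtain ⟨K, hK, r0, hr0, h3⟩ := exists_core (G := G) _ univ rfl (by
    have h1 := G.sum_degrees_eq_twice_card_edges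
    have h2 : ∀ x, G.degree x = (univ.filter (fun y => G.Adj x y)).card := by
      intro x
      rw [← card_neighborFinset_eq_degree, neighborFinset_eq_filter]
    simp only [h2] at h1
    rw [h1, card_univ]
    omega)
  obtain ⟨r, p, N, w, T, hN, hne, hcard, uw, hw, hM⟩ := config2 hc hK hr0 h3
  obtain ⟨Th, hTh⟩ : ∃ Th : V → Finset V, ∀ v x, x ∈ Th v ↔
      (x ≠ r ∧ p x = v ∧ ∀ s, Desc r p x s → (∀ y, ¬ NT G p s y) ∧ G.degree s ≤ 2) :=
    ⟨fun v => univ.filter (fun x => x ≠ r ∧ p x = v ∧
      ∀ s, Desc r p x s → (∀ y, ¬ NT G p s y) ∧ G.degree s ≤ 2), by simp⟩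
  have he : ∀ x, ∃ z, Desc r p x z ∧ ∀ y, Desc r p x y → G.dist r y ≤ G.dist r z :=
    fun x => T.deepest (fun z => Desc r p x z) x Desc.refl
  choose e he1 he2 using he
  have ho : ∀ v, ∃ o, (Th v).Nonempty → o ∈ Th v := by
    intro v
    by_cases h : (Th v).Nonempty
    · exact ⟨h.choose, fun _ => h.choose_spec⟩
    · exact ⟨v, fun h' => absurd h' h⟩
  choose o ho using ho
  obtain ⟨Lv, hLv⟩ : ∃ Lv : Finset V, Lv = univ.biUnion (fun v => ((Th v).erase (o v)).image e) :=
    ⟨_, rfl⟩
  obtain ⟨S, hS⟩ : ∃ S : Finset V, S = insert r (N.erase w ∪ Lv) := ⟨_, rfl⟩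
  have eS : ∀ v x, x ∈ Th v → x ≠ o v → e x ∈ S := by
    intro v x h1 h2
    rw [hS, hLv]
    refine mem_insert_of_mem (mem_union_right _ (mem_biUnion.2 ⟨v, mem_univ _, ?_⟩))
    exact mem_image_of_mem e (mem_erase.2 ⟨h2, h1⟩)
  obtain ⟨h1, h2, -⟩ := T.regime2 (S := S) hN uw hw hM (by simp [hS])
    (fun x hx e => by
      rw [hS]
      exact mem_insert_of_mem (mem_union_left _ (mem_erase.2 ⟨e, hx⟩)))
  have nb : ∀ s y, (∀ y, ¬ NT G p s y) → G.Adj s y → p s = y ∨ (y ≠ r ∧ p y = s) := by
    intro s y h ha
    by_cases e1 : p s = y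
    · exact Or.inl e1
    · have : p y = s := by
        by_contra hn
        exact h y ⟨ha, e1, hn⟩
      exact Or.inr ⟨T.ne_root ha.symm this, this⟩
  have thin : ∀ x, Def r p S x → x ∈ Th (p x) := by
    by_contra hn
    push Not at hn
    obtain ⟨x, hx⟩ := hn
    obtain ⟨z, ⟨hz1, hz2⟩, hm⟩ := T.deepest (fun x => Def r p S x ∧ x ∉ Th (p x)) x hx
    have ch : ∀ c, c ≠ r → p c = z → c ∈ Th z := by
      intro c c1 c2
      by_contra hh
      have := hm c ⟨fun s hs hD => hz1 s hs ((Desc.of_child c1 c2).trans hD), by rwa [c2]⟩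
      have := T.lev c c1
      rw [c2] at this
      omega
    refine hz2 ((hTh _ z).2 ⟨(h1 z hz1).1, rfl, fun s hs => ⟨(h1 z hz1).2 s hs, ?_⟩⟩)
    by_cases e1 : s = z
    · subst e1
      refine le_trans (card_le_card (t := {p s, o s}) ?_) card_le_two
      intro y hy
      rcases nb s y ((h1 s hz1).2 s hs) (by simpa using hy) with h | h
      · simp [h]
      · have : y = o s := by
          by_contra hh
          exact hz1 _ (eS s y (ch y h.1 h.2) hh) ((Desc.of_child h.1 h.2).trans (he1 y))
        simp [this]
    · obtain ⟨c, c1, c2, c3⟩ := hs.child e1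
      exact (((hTh _ c).1 (ch c c1 c2)).2.2 s c3).2
  obtain ⟨h4, h5⟩ := h2 (by
    intro x y hxy hp hx hy
    by_cases e1 : x = o (p x)
    · exact hy _ (eS _ y (thin y hy) (fun e2 => hxy (by rw [e1, e2, ← hp, ← e1]))) (he1 y)
    · exact hx _ (eS _ x (thin x hx) e1) (he1 x))
  refine ⟨S, ?_, h4, h5⟩
  have small : ∀ v, G.degree v ≤ 2 → (Th v).card ≤ 1 := by
    intro v hv
    by_contra hn
    obtain ⟨a, ha, b, hb, hab⟩ := one_lt_card.1 (not_le.1 hn)
    obtain ⟨a1, a2, a3⟩ := (hTh v a).1 ha
    obtain ⟨b1, b2, b3⟩ := (hTh v b).1 hb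
    have aa : G.Adj v a := a2 ▸ (T.adj a a1).symm
    have ab : G.Adj v b := b2 ▸ (T.adj b b1).symm
    have third : ∀ c, G.Adj v c → c = a ∨ c = b := by
      intro c h
      by_contra hh
      push Not at hh
      have : 2 < (G.neighborFinset v).card :=
        two_lt_card.2 ⟨a, by simpa using aa, b, by simpa using ab, c, by simpa using h, hab,
          hh.1.symm, hh.2.symm⟩
      rw [card_neighborFinset_eq_degree] at this
      omega
    by_cases hvr : v = r
    · obtain ⟨x, hx⟩ := hne
      obtain ⟨y, hy⟩ := (hN x).1 hx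
      have xr : x ≠ r := by
        rintro rfl
        exact T.root_notNT hy
      obtain ⟨c, c1, c2, c3⟩ := (T.root_desc _ x rfl).child xr
      rcases third c (by rw [hvr, ← c2]; exact (T.adj c c1).symm) with h | h
      · exact (a3 x (h ▸ c3)).1 y hy
      · exact (b3 x (h ▸ c3)).1 y hy
    · have l1 := T.lev v hvr
      have l2 := T.lev a a1
      have l3 := T.lev b b1
      rw [a2] at l2
      rw [b2] at l3
      rcases third _ (T.adj v hvr) with h | h
      · rw [h] at l1
        omega
      · rw [h] at l1
        omega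
  have big : ∀ v, (Th v).card ≤ {u : V | G.degree u = 1 ∧ ∃ p : G.Walk v u, p.IsPath ∧
      ∀ w ∈ p.support, w ≠ v → w ≠ u → G.degree w = 2}.ncard := by
    intro v
    rw [← Set.ncard_coe_finset]
    refine Set.ncard_le_ncard_of_injOn e ?_ ?_ (Set.toFinite _)
    · intro a ha
      obtain ⟨a1, a2, a3⟩ := (hTh v a).1 (by simpa using ha)
      subst a2
      have nr : ∀ s, Desc r p a s → s ≠ r := by
        intro s hs
        have := T.le hs
        have := T.lev a a1
        exact T.ne_root' (by omega)
      refine ⟨?_, ?_⟩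
      · rw [← card_neighborFinset_eq_degree, card_eq_one]
        refine ⟨p (e a), ?_⟩
        ext y
        simp only [mem_neighborFinset, mem_singleton]
        constructor
        · intro h
          rcases nb _ y (a3 _ (he1 a)).1 h with h' | h'
          · exact h'.symm
          · have := he2 a y ((he1 a).trans (Desc.of_child h'.1 h'.2))
            have := T.lev y h'.1
            rw [h'.2] at this
            omega
        · rintro rfl
          exact T.adj _ (nr _ (he1 a))
      · obtain ⟨q, q1, q2⟩ := T.walk a1 (he1 a)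
        refine ⟨q, q.isPath_of_length_eq_dist ?_, ?_⟩
        · have := T.down ((Desc.of_child a1 rfl).trans (he1 a))
          unfold Down at this
          omega
        · intro x hx x1 x2
          rcases q2 x hx with h | h | ⟨h, c, c1, c2⟩
          · exact absurd h x1
          · exact absurd h x2
          · have u1 := (a3 x h).2
            have xr := nr x h
            have u2 : 1 < (G.neighborFinset x).card := by
              refine one_lt_card.2 ⟨p x, by simpa using T.adj x xr, c, ?_, ?_⟩
              · rw [mem_neighborFinset, ← c2]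
                exact (T.adj c c1).symm
              · intro e'
                have := T.lev x xr
                have := T.lev c c1
                rw [c2, ← e'] at this
                omega
            rw [card_neighborFinset_eq_degree] at u2
            omega
    · intro a ha b hb hab
      obtain ⟨a1, a2, -⟩ := (hTh v a).1 (by simpa using ha)
      obtain ⟨b1, b2, -⟩ := (hTh v b).1 (by simpa using hb)
      have l2 := T.lev a a1
      have l3 := T.lev b b1
      rw [a2] at l2
      rw [b2] at l3
      exact T.uniq (he1 a) (hab ▸ he1 b) (by omega)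
  have cL : Lv.card ≤ ∑ v ∈ Finset.univ.filter (fun v => 3 ≤ G.degree v),
      ({u : V | G.degree u = 1 ∧ ∃ p : G.Walk v u, p.IsPath ∧
        ∀ w ∈ p.support, w ≠ v → w ≠ u → G.degree w = 2}.ncard - 1) := by
    rw [hLv, sum_filter]
    refine le_trans card_biUnion_le (sum_le_sum ?_)
    intro v _
    have c1 : ((Th v).erase (o v)).card ≤ (Th v).card - 1 := by
      by_cases h : (Th v).Nonempty
      · rw [card_erase_of_mem (ho v h)]
      · rw [not_nonempty_iff_eq_empty.1 h]
        simp
    have c2 := card_image_le (s := (Th v).erase (o v)) (f := e)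
    split_ifs with h
    · have := big v
      omega
    · have := small v (by omega)
      omega
  have c1 := card_insert_le r (N.erase w ∪ Lv)
  have c2 := card_union_le (N.erase w) Lv
  rw [hS]
  omega

end Pool.Agent.H.MP_4617fc_co
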